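import Mathlib

/-!
# Tensor ideals in rigid abelian monoidal categories (MP_4f3b9e_al)

Exactness of the tensor product, projective and injective objects.
-/

set_option autoImplicit false
set_option linter.unusedSectionVars false

namespace Pool.Agent.TPP

open CategoryTheory CategoryTheory.Limits MonoidalCategory

universe v u

variable {C : Type u} [Category.{v} C] [Abelian C] [MonoidalCategory C] [MonoidalPreadditive C]
  [RigidCategory C]

instance (X : C) : PreservesColimits (tensorLeft X) :=
  (tensorLeftAdjunction (ᘁX) X).leftAdjoint_preservesColimits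

instance (X : C) : PreservesLimits (tensorLeft X) :=
  (tensorLeftAdjunction X (Xᘁ)).rightAdjoint_preservesLimits

instance (X : C) : PreservesColimits (tensorRight X) :=
  (tensorRightAdjunction X (Xᘁ)).leftAdjoint_preservesColimits

instance (X : C) : PreservesLimits (tensorRight X) :=
  (tensorRightAdjunction (ᘁX) X).rightAdjoint_preservesLimits

instance (X : C) : PreservesFiniteColimits (tensorLeft X) := inferInstance
instance (X : C) : PreservesFiniteLimits (tensorLeft X) := inferInstance
instance (X : C) : PreservesFiniteColimits (tensorRight X) := inferInstance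
instance (X : C) : PreservesFiniteLimits (tensorRight X) := inferInstance

lemma projective_tensor_left (X : C) {P : C} (hP : Projective P) : Projective (X ⊗ P) :=
  (tensorLeftAdjunction (ᘁX) X).map_projective P hP

lemma projective_tensor_right {P : C} (hP : Projective P) (X : C) : Projective (P ⊗ X) :=
  (tensorRightAdjunction X (Xᘁ)).map_projective P hP

lemma injective_tensor_left (X : C) {P : C} (hP : Injective P) : Injective (X ⊗ P) :=
  (tensorLeftAdjunction X (Xᘁ)).map_injective P hP

lemma injective_tensor_right {P : C} (hP : Injective P) (X : C) : Injective (P ⊗ X) :=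
  (tensorRightAdjunction (ᘁX) X).map_injective P hP

lemma projective_of_retract {X Y : C} (i : X ⟶ Y) (r : Y ⟶ X) (h : i ≫ r = 𝟙 X)
    (hY : Projective Y) : Projective X where
  factors f e _ := ⟨i ≫ Projective.factorThru (r ≫ f) e, by
    rw [Category.assoc, Projective.factorThru_comp, ← Category.assoc, h, Category.id_comp]⟩

lemma injective_of_retract {X Y : C} (i : X ⟶ Y) (r : Y ⟶ X) (h : i ≫ r = 𝟙 X)
    (hY : Injective Y) : Injective X where
  factors g f _ := ⟨Injective.factorThru (g ≫ i) f ≫ r, by
    rw [← Category.assoc, Injective.comp_factorThru, Category.assoc, h, Category.comp_id]⟩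

/-- `X` is a retract of `X ⊗ (Y ⊗ X)`. -/
lemma retract_left (X Y : C) [ExactPairing X Y] :
    ((λ_ X).inv ≫ η_ X Y ▷ X ≫ (α_ X Y X).hom) ≫ (X ◁ ε_ X Y ≫ (ρ_ X).hom) = 𝟙 X := by
  have h := ExactPairing.evaluation_coevaluation X Y
  calc _ = (λ_ X).inv ≫ (η_ X Y ▷ X ≫ (α_ X Y X).hom ≫ X ◁ ε_ X Y) ≫ (ρ_ X).hom := by
        simp only [Category.assoc]
    _ = _ := by rw [h]; simp

/-- `Y` is a retract of `Y ⊗ (X ⊗ Y)`. -/
lemma retract_right (X Y : C) [ExactPairing X Y] :
    ((ρ_ Y).inv ≫ Y ◁ η_ X Y) ≫ ((α_ Y X Y).inv ≫ ε_ X Y ▷ Y ≫ (λ_ Y).hom) = 𝟙 Y := by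
  have h := ExactPairing.coevaluation_evaluation X Y
  calc _ = (ρ_ Y).inv ≫ (Y ◁ η_ X Y ≫ (α_ Y X Y).inv ≫ ε_ X Y ▷ Y) ≫ (λ_ Y).hom := by
        simp only [Category.assoc]
    _ = _ := by rw [h]; simp

lemma split_mono {S : ShortComplex C} (hS : S.ShortExact) (h : Projective S.X₃) :
    ∃ r : S.X₂ ⟶ S.X₁, S.f ≫ r = 𝟙 _ :=
  ⟨hS.splittingOfProjective.r, hS.splittingOfProjective.f_r⟩

lemma split_epi {S : ShortComplex C} (hS : S.ShortExact) (h : Injective S.X₁) :
    ∃ s : S.X₃ ⟶ S.X₂, s ≫ S.g = 𝟙 _ :=
  ⟨hS.splittingOfInjective.s, hS.splittingOfInjective.s_g⟩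

lemma shortExact_coker {X Y : C} (f : X ⟶ Y) [Mono f] :
    (ShortComplex.mk f (cokernel.π f) (cokernel.condition f)).ShortExact where
  exact := ShortComplex.exact_cokernel f
  mono_f := by assumption
  epi_g := inferInstance

lemma shortExact_ker {X Y : C} (f : X ⟶ Y) [Epi f] :
    (ShortComplex.mk (kernel.ι f) f (kernel.condition f)).ShortExact where
  exact := ShortComplex.exact_kernel f
  mono_f := inferInstance
  epi_g := by assumption

/-- If `X` has the right dual `Y` which is projective then `X ⊗ W` is injective. -/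
lemma injective_tensor_of_dual_projective (X Y : C) [ExactPairing X Y] (hY : Projective Y)
    (W : C) : Injective (X ⊗ W) where
  factors {L M} g f _ := by
    let adj := tensorLeftAdjunction X Y
    have hS := (shortExact_coker f).map_of_exact (tensorLeft Y)
    obtain ⟨r, hr⟩ : ∃ r : (tensorLeft Y).obj M ⟶ (tensorLeft Y).obj L,
        (tensorLeft Y).map f ≫ r = 𝟙 _ := split_mono hS (projective_tensor_right hY _)
    refine ⟨adj.homEquiv M W (r ≫ (adj.homEquiv L W).symm g), ?_⟩
    rw [← Adjunction.homEquiv_naturality_left, ← Category.assoc, hr, Category.id_comp]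
    exact (adj.homEquiv L W).apply_symm_apply g

/-- If `Y` has the left dual `X` which is injective then `Y ⊗ W` is projective. -/
lemma projective_tensor_of_dual_injective (X Y : C) [ExactPairing X Y] (hX : Injective X)
    (W : C) : Projective (Y ⊗ W) where
  factors {N M} g e _ := by
    let adj := tensorLeftAdjunction X Y
    have hS := (shortExact_ker e).map_of_exact (tensorLeft X)
    obtain ⟨s, hs⟩ : ∃ s : (tensorLeft X).obj M ⟶ (tensorLeft X).obj N,
        s ≫ (tensorLeft X).map e = 𝟙 _ := split_epi hS (injective_tensor_right hX _)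
    refine ⟨(adj.homEquiv W N).symm (adj.homEquiv W M g ≫ s), ?_⟩
    rw [← Adjunction.homEquiv_naturality_right_symm, Category.assoc, hs, Category.comp_id]
    exact (adj.homEquiv W M).symm_apply_apply g

lemma injective_of_projective {P : C} (hP : Projective P) : Injective P := by
  have h1 : Projective (Pᘁ) := projective_of_retract _ _ (retract_right P (Pᘁ))
    (projective_tensor_left _ (projective_tensor_right hP _))
  exact injective_of_retract _ _ (retract_left P (Pᘁ))
    (injective_tensor_of_dual_projective P (Pᘁ) h1 _)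

lemma projective_of_injective {P : C} (hP : Injective P) : Projective P := by
  have h1 : Injective (ᘁP) := injective_of_retract _ _ (retract_left (ᘁP) P)
    (injective_tensor_left _ (injective_tensor_right hP _))
  exact projective_of_retract _ _ (retract_right (ᘁP) P)
    (projective_tensor_of_dual_injective (ᘁP) P h1 _)

end Pool.Agent.TPP
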