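import Mathlib

/-!
# Naturality of the action of exact functors on Ext
-/

set_option autoImplicit false

namespace Pool.Agent.TPP

open CategoryTheory CategoryTheory.Limits CategoryTheory.Abelian

universe w w' v v' u u'

variable {C : Type u} [Category.{v} C] [Abelian C] [HasExt.{w} C] [EnoughProjectives C]
  {D : Type u'} [Category.{v'} D] [Abelian D] [HasExt.{w'} D]

/-- Every class of positive degree is the product of the class of a short exact sequence and a
class of lower degree. -/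
lemma ext_decomp {X Y : C} {n : ℕ} (ζ : Ext.{w} X Y (n + 1)) :
    ∃ (S : ShortComplex C) (hS : S.ShortExact) (e : S.X₃ = X) (ζ' : Ext.{w} S.X₁ Y n),
      ζ = e ▸ hS.extClass.comp ζ' (Nat.add_comm 1 n) := by
  have hS : (ShortComplex.mk (kernel.ι (Projective.π X)) (Projective.π X)
      (kernel.condition _)).ShortExact :=
    { exact := ShortComplex.exact_kernel _, mono_f := inferInstance, epi_g := inferInstance }
  obtain ⟨ζ', h⟩ := Ext.contravariant_sequence_exact₃ hS Y ζ
    (Ext.eq_zero_of_projective _) (Nat.add_comm 1 n)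
  exact ⟨_, hS, rfl, ζ', h.symm⟩

/-- Naturality. -/
lemma map_naturality (F G : C ⥤ D) [F.Additive] [G.Additive] [PreservesFiniteLimits F]
    [PreservesFiniteColimits F] [PreservesFiniteLimits G] [PreservesFiniteColimits G]
    (τ : F ⟶ G) {n : ℕ} {X Y : C} (ζ : Ext.{w} X Y n) :
    (ζ.mapExactFunctor F).comp (Ext.mk₀ (τ.app Y)) (add_zero n) =
      (Ext.mk₀ (τ.app X)).comp (ζ.mapExactFunctor G) (zero_add n) := by
  induction n generalizing X with
  | zero =>
    obtain ⟨g, rfl⟩ := (Ext.mk₀_bijective X Y).2 ζ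
    rw [Ext.mapExactFunctor_mk₀, Ext.mapExactFunctor_mk₀, Ext.mk₀_comp_mk₀, Ext.mk₀_comp_mk₀,
      τ.naturality]
  | succ n ih =>
    obtain ⟨S, hS, rfl, ζ', rfl⟩ := ext_decomp ζ
    dsimp only
    have key : ∀ (eF : Ext.{w'} (F.obj S.X₃) (F.obj S.X₁) 1)
        (eG : Ext.{w'} (G.obj S.X₃) (G.obj S.X₁) 1),
        eF.comp (Ext.mk₀ (τ.app S.X₁)) (add_zero 1) =
          (Ext.mk₀ (τ.app S.X₃)).comp eG (zero_add 1) →
        (eF.comp (ζ'.mapExactFunctor F) (Nat.add_comm 1 n)).comp (Ext.mk₀ (τ.app Y))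
            (add_zero (n + 1)) =
          (Ext.mk₀ (τ.app S.X₃)).comp (eG.comp (ζ'.mapExactFunctor G) (Nat.add_comm 1 n))
            (zero_add (n + 1)) := by
      intro eF eG h
      rw [Ext.comp_assoc_of_third_deg_zero, ih ζ', ← Ext.comp_assoc_of_second_deg_zero, h,
        Ext.comp_assoc _ _ _ (zero_add 1) (Nat.add_comm 1 n) (by omega)]
    rw [Ext.mapExactFunctor_comp, Ext.mapExactFunctor_comp, Ext.mapExactFunctor_extClass,
      Ext.mapExactFunctor_extClass]
    exact key _ _ (ShortComplex.ShortExact.extClass_naturality (hS.map_of_exact F)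
      (hS.map_of_exact G) (S.mapNatTrans τ))

/-- The identity functor. -/
lemma map_id {n : ℕ} {X Y : C} (ζ : Ext.{w} X Y n) : ζ.mapExactFunctor (𝟭 C) = ζ := by
  induction n generalizing X with
  | zero =>
    obtain ⟨g, rfl⟩ := (Ext.mk₀_bijective X Y).2 ζ
    rw [Ext.mapExactFunctor_mk₀]
    rfl
  | succ n ih =>
    obtain ⟨S, hS, rfl, ζ', rfl⟩ := ext_decomp ζ
    dsimp only
    have key : ∀ (e e' : Ext.{w} S.X₃ S.X₁ 1), e = e' →
        e.comp (ζ'.mapExactFunctor (𝟭 C)) (Nat.add_comm 1 n) =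
          e'.comp ζ' (Nat.add_comm 1 n) := by
      rintro e _ rfl
      rw [ih ζ']
    rw [Ext.mapExactFunctor_comp, Ext.mapExactFunctor_extClass]
    exact key _ _ rfl

/-- Composition of functors. -/
lemma map_comp {E : Type*} [Category E] [Abelian E] [HasExt.{w'} E] (F : C ⥤ D) (G : D ⥤ E)
    [F.Additive] [G.Additive] [PreservesFiniteLimits F]
    [PreservesFiniteColimits F] [PreservesFiniteLimits G] [PreservesFiniteColimits G]
    {n : ℕ} {X Y : C} (ζ : Ext.{w} X Y n) :
    ζ.mapExactFunctor (F ⋙ G) = (ζ.mapExactFunctor F).mapExactFunctor G := by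
  induction n generalizing X with
  | zero =>
    obtain ⟨g, rfl⟩ := (Ext.mk₀_bijective X Y).2 ζ
    rw [Ext.mapExactFunctor_mk₀, Ext.mapExactFunctor_mk₀, Ext.mapExactFunctor_mk₀]
    rfl
  | succ n ih =>
    obtain ⟨S, hS, rfl, ζ', rfl⟩ := ext_decomp ζ
    dsimp only
    have key : ∀ (e e' : Ext.{w'} ((F ⋙ G).obj S.X₃) ((F ⋙ G).obj S.X₁) 1), e = e' →
        e.comp (ζ'.mapExactFunctor (F ⋙ G)) (Nat.add_comm 1 n) =
          e'.comp ((ζ'.mapExactFunctor F).mapExactFunctor G) (Nat.add_comm 1 n) := by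
      rintro e _ rfl
      rw [ih ζ']
    rw [Ext.mapExactFunctor_comp, Ext.mapExactFunctor_comp, Ext.mapExactFunctor_comp]
    apply key
    have h1 := Ext.mapExactFunctor_extClass (F ⋙ G) hS
    have h2 := Ext.mapExactFunctor_extClass F hS
    have h3 := Ext.mapExactFunctor_extClass G (hS.map_of_exact F)
    exact h1.trans (h3.symm.trans (congrArg (Ext.mapExactFunctor G) h2.symm))

end Pool.Agent.TPP
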