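import Pool.Agent.TPP.Basic

/-!
# Thick tensor ideals and approximations of the unit
-/

set_option autoImplicit false
set_option linter.unusedSectionVars false

namespace Pool.Agent.TPP

open CategoryTheory CategoryTheory.Limits MonoidalCategory
open scoped ZeroObject

universe v u

variable {C : Type u} [Category.{v} C] [Abelian C] [MonoidalCategory C] [MonoidalPreadditive C]
  [RigidCategory C]

/-- A thick tensor ideal: a class of objects which is closed under direct summands, extensions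
and tensor products with arbitrary objects on both sides, and contains the projective objects. -/
structure ThickIdeal (J : C → Prop) : Prop where
  retract : ∀ {X Y : C} (i : X ⟶ Y) (r : Y ⟶ X), i ≫ r = 𝟙 X → J Y → J X
  ext : ∀ {S : ShortComplex C}, S.ShortExact → J S.X₁ → J S.X₃ → J S.X₂
  proj : ∀ {P : C}, Projective P → J P
  left : ∀ (X : C) {Y : C}, J Y → J (X ⊗ Y)
  right : ∀ {X : C} (Y : C), J X → J (X ⊗ Y)

/-- The morphism factors through a projective object. -/
def StableZero {X Y : C} (f : X ⟶ Y) : Prop :=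
  ∃ (P : C) (_ : Projective P) (g : X ⟶ P) (h : P ⟶ Y), g ≫ h = f

/-- Up to isomorphism there are only finitely many indecomposable objects in `J` with a morphism to
the unit object that does not factor through a projective object. -/
def FinTo (J : C → Prop) : Prop :=
  ∃ (n : ℕ) (F : Fin n → C), ∀ X : C, J X → Indecomposable X →
    (∃ f : X ⟶ 𝟙_ C, ¬ StableZero f) → ∃ i, Nonempty (X ≅ F i)

/-- `f : F ⟶ 𝟙` is a right approximation of the unit object by objects of `J`. -/
def IsApprox (J : C → Prop) (F : C) (f : F ⟶ 𝟙_ C) : Prop :=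
  J F ∧ ∀ X : C, J X → ∀ g : X ⟶ 𝟙_ C, ∃ h : X ⟶ F, h ≫ f = g

namespace ThickIdeal

variable {J : C → Prop} (hJ : ThickIdeal J)

include hJ

lemma iso {X Y : C} (e : X ≅ Y) (h : J Y) : J X := hJ.retract e.hom e.inv e.hom_inv_id h

lemma biprod {X Y : C} (hX : J X) (hY : J Y) : J (X ⊞ Y) :=
  hJ.ext (S := ShortComplex.mk (biprod.inl : X ⟶ X ⊞ Y) biprod.snd biprod.inl_snd)
    (ShortComplex.Splitting.ofHasBinaryBiproduct X Y).shortExact hX hY

lemma rightDual {X : C} (hX : J X) : J (Xᘁ) :=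
  hJ.retract _ _ (retract_right X (Xᘁ)) (hJ.left _ (hJ.right _ hX))

lemma leftDual {X : C} (hX : J X) : J (ᘁX) :=
  hJ.retract _ _ (retract_left (ᘁX) X) (hJ.left _ (hJ.right _ hX))

end ThickIdeal

/-! ## Existence of minimal approximations -/

section Linear

variable (k : Type*) [Field k] [Linear k C]

lemma StableZero.comp_left {X Y Z : C} {f : Y ⟶ Z} (h : StableZero f) (g : X ⟶ Y) :
    StableZero (g ≫ f) := by
  obtain ⟨P, hP, a, b, rfl⟩ := h
  exact ⟨P, hP, g ≫ a, b, by simp⟩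

/-- A finite list of objects of `J` has a common approximation. -/
lemma exists_approx_family [∀ X Y : C, FiniteDimensional k (X ⟶ Y)] {J : C → Prop}
    (hJ : ThickIdeal J) {n : ℕ} (F : Fin n → C) :
    ∃ (G : C) (f : G ⟶ 𝟙_ C), J G ∧ ∀ i, J (F i) → ∀ g : F i ⟶ 𝟙_ C, ∃ h, h ≫ f = g := by
  induction n with
  | zero =>
    refine ⟨0, 0, hJ.proj (isZero_zero C).projective, fun i => i.elim0⟩
  | succ n ih =>
    obtain ⟨G, f, hG, h⟩ := ih (fun i => F i.castSucc)
    by_cases hl : J (F (Fin.last n))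
    · -- add copies of the last object
      have key : ∀ (m : ℕ) (b : Fin m → (F (Fin.last n) ⟶ 𝟙_ C)),
          ∃ (H : C) (f' : H ⟶ 𝟙_ C), J H ∧ ∀ g ∈ Submodule.span k (Set.range b),
            ∃ h, h ≫ f' = g := by
        intro m
        induction m with
        | zero =>
          intro b
          refine ⟨0, 0, hJ.proj (isZero_zero C).projective, fun g hg => ⟨0, ?_⟩⟩
          have : Set.range b = ∅ := Set.range_eq_empty b
          rw [this, Submodule.span_empty, Submodule.mem_bot] at hg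
          rw [hg]; simp
        | succ m ihm =>
          intro b
          obtain ⟨H, f', hH, h'⟩ := ihm (fun i => b i.castSucc)
          refine ⟨H ⊞ F (Fin.last n), biprod.desc f' (b (Fin.last m)), hJ.biprod hH hl, ?_⟩
          intro g hg
          have hspan : g ∈ Submodule.span k (Set.range fun i : Fin m => b i.castSucc) ⊔
              Submodule.span k {b (Fin.last m)} := by
            rw [← Submodule.span_union]
            refine Submodule.span_mono ?_ hg
            rintro _ ⟨i, rfl⟩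
            rcases Fin.eq_castSucc_or_eq_last i with ⟨j, rfl⟩ | rfl
            · exact Or.inl ⟨j, rfl⟩
            · exact Or.inr rfl
          obtain ⟨g₁, hg₁, g₂, hg₂, rfl⟩ := Submodule.mem_sup.1 hspan
          obtain ⟨a₁, ha₁⟩ := h' g₁ hg₁
          obtain ⟨c, rfl⟩ := Submodule.mem_span_singleton.1 hg₂
          refine ⟨biprod.lift a₁ (c • 𝟙 _), ?_⟩
          simp [ha₁]
      obtain ⟨b⟩ : Nonempty (Module.Basis (Fin (Module.finrank k (F (Fin.last n) ⟶ 𝟙_ C))) k
        (F (Fin.last n) ⟶ 𝟙_ C)) := ⟨Module.finBasis k _⟩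
      obtain ⟨H, f', hH, h'⟩ := key _ b
      refine ⟨G ⊞ H, biprod.desc f f', hJ.biprod hG hH, fun i hi g => ?_⟩
      rcases Fin.eq_castSucc_or_eq_last i with ⟨j, rfl⟩ | rfl
      · obtain ⟨a, ha⟩ := h j hi g
        exact ⟨a ≫ biprod.inl, by simp [ha]⟩
      · obtain ⟨a, ha⟩ := h' g (by rw [b.span_eq]; trivial)
        exact ⟨a ≫ biprod.inr, by simp [ha]⟩
    · refine ⟨G, f, hG, fun i hi g => ?_⟩
      rcases Fin.eq_castSucc_or_eq_last i with ⟨j, rfl⟩ | rfl
      · exact h j hi g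
      · exact absurd hi hl

lemma finrank_end_lt [∀ X Y : C, FiniteDimensional k (X ⟶ Y)] {X Y : C} (i : X ⟶ Y) (r : Y ⟶ X)
    (h : i ≫ r = 𝟙 X) (h' : r ≫ i ≠ 𝟙 Y) :
    Module.finrank k (X ⟶ X) < Module.finrank k (Y ⟶ Y) := by
  -- the injective map `x ↦ r ≫ x ≫ i`, whose image does not contain the identity
  let φ : (X ⟶ X) →ₗ[k] (Y ⟶ Y) :=
    { toFun := fun x => r ≫ x ≫ i
      map_add' := by intro x y; simp
      map_smul' := by intro c x; simp }
  have hφ : Function.Injective φ := by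
    intro x y hxy
    have h1 : i ≫ (r ≫ x ≫ i) ≫ r = i ≫ (r ≫ y ≫ i) ≫ r := by
      have : φ x = φ y := hxy
      simp only [φ, LinearMap.coe_mk, AddHom.coe_mk] at this
      rw [this]
    simpa [h, reassoc_of% h] using h1
  have hne : LinearMap.range φ ≠ ⊤ := by
    intro htop
    have : 𝟙 Y ∈ LinearMap.range φ := by rw [htop]; trivial
    obtain ⟨x, hx⟩ := this
    simp only [φ, LinearMap.coe_mk, AddHom.coe_mk] at hx
    apply h'
    calc r ≫ i = r ≫ i ≫ 𝟙 Y := by simp
      _ = r ≫ i ≫ (r ≫ x ≫ i) := by rw [hx]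
      _ = r ≫ x ≫ i := by rw [reassoc_of% h]
      _ = 𝟙 Y := hx
  have h1 := Submodule.finrank_lt (lt_top_iff_ne_top.2 hne).ne
  rwa [LinearMap.finrank_range_of_inj hφ] at h1

lemma exists_approx [EnoughProjectives C] [∀ X Y : C, FiniteDimensional k (X ⟶ Y)] {J : C → Prop}
    (hJ : ThickIdeal J) (hfin : FinTo J) : ∃ (F : C) (f : F ⟶ 𝟙_ C), IsApprox J F f := by
  obtain ⟨n, F, hF⟩ := hfin
  obtain ⟨G, f, hG, h⟩ := exists_approx_family k hJ F
  have hPJ : J (Projective.over (𝟙_ C)) := hJ.proj inferInstance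
  refine ⟨G ⊞ Projective.over (𝟙_ C), biprod.desc f (Projective.π _), hJ.biprod hG hPJ, ?_⟩
  -- strong induction on the dimension of the endomorphism ring
  have key : ∀ (d : ℕ) (X : C), Module.finrank k (X ⟶ X) ≤ d → J X → ∀ g : X ⟶ 𝟙_ C,
      ∃ h, h ≫ biprod.desc f (Projective.π (𝟙_ C)) = g := by
    intro d
    induction d using Nat.strong_induction_on with
    | _ d ih =>
      intro X hd hX g
      by_cases hz : IsZero X
      · exact ⟨0, hz.eq_of_src _ _⟩
      by_cases hind : Indecomposable X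
      · by_cases hs : StableZero g
        · obtain ⟨P, hP, a, b, rfl⟩ := hs
          refine ⟨a ≫ Projective.factorThru b (Projective.π (𝟙_ C)) ≫ biprod.inr, ?_⟩
          simp
        · obtain ⟨i, ⟨e⟩⟩ := hF X hX hind ⟨g, hs⟩
          obtain ⟨a, ha⟩ := h i (hJ.iso e.symm hX) (e.inv ≫ g)
          refine ⟨e.hom ≫ a ≫ biprod.inl, ?_⟩
          simp [ha]
      · -- decompose
        have : ∃ Y Z, Nonempty (X ≅ Y ⊞ Z) ∧ ¬ IsZero Y ∧ ¬ IsZero Z := by
          by_contra hcon
          apply hind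
          refine ⟨hz, fun Y Z e => ?_⟩
          by_contra hYZ
          rw [not_or] at hYZ
          exact hcon ⟨Y, Z, ⟨e⟩, hYZ.1, hYZ.2⟩
        obtain ⟨Y, Z, ⟨e⟩, hY, hZ⟩ := this
        have h1 : Module.finrank k (Y ⟶ Y) < Module.finrank k (X ⟶ X) := by
          refine finrank_end_lt k (biprod.inl ≫ e.inv) (e.hom ≫ biprod.fst) (by simp) ?_
          intro hcon
          apply hZ
          rw [IsZero.iff_id_eq_zero]
          calc 𝟙 Z = (biprod.inr ≫ e.inv) ≫ 𝟙 X ≫ (e.hom ≫ biprod.snd) := by simp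
            _ = 0 := by rw [← hcon]; simp
        have h2 : Module.finrank k (Z ⟶ Z) < Module.finrank k (X ⟶ X) := by
          refine finrank_end_lt k (biprod.inr ≫ e.inv) (e.hom ≫ biprod.snd) (by simp) ?_
          intro hcon
          apply hY
          rw [IsZero.iff_id_eq_zero]
          calc 𝟙 Y = (biprod.inl ≫ e.inv) ≫ 𝟙 X ≫ (e.hom ≫ biprod.fst) := by simp
            _ = 0 := by rw [← hcon]; simp
        have hYJ : J Y := hJ.retract (biprod.inl ≫ e.inv) (e.hom ≫ biprod.fst) (by simp) hX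
        have hZJ : J Z := hJ.retract (biprod.inr ≫ e.inv) (e.hom ≫ biprod.snd) (by simp) hX
        obtain ⟨a, ha⟩ := ih _ (lt_of_lt_of_le h1 hd) Y le_rfl hYJ (biprod.inl ≫ e.inv ≫ g)
        obtain ⟨b, hb⟩ := ih _ (lt_of_lt_of_le h2 hd) Z le_rfl hZJ (biprod.inr ≫ e.inv ≫ g)
        refine ⟨e.hom ≫ biprod.desc a b, ?_⟩
        rw [Category.assoc, ← Iso.eq_inv_comp]
        apply biprod.hom_ext'
        · simpa using ha
        · simpa using hb
  intro X hX g
  exact key _ X le_rfl hX g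

/-- Fitting: for a non-invertible endomorphism `h` there is an idempotent `e ≠ 1` such that `1 - e`
is annihilated by a power of `h`. -/
lemma fitting [∀ X Y : C, FiniteDimensional k (X ⟶ Y)] {F : C} (h : End F) (hh : ¬ IsUnit h) :
    ∃ (e : End F) (m : ℕ), e * e = e ∧ e ≠ 1 ∧ h ^ m * (1 - e) = 0 := by
  have : FiniteDimensional k (End F) := inferInstanceAs (FiniteDimensional k (F ⟶ F))
  have hint : IsIntegral k h := Algebra.IsIntegral.isIntegral h
  have hp0 : minpoly k h ≠ 0 := minpoly.ne_zero hint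
  have hunit : ∀ q : Polynomial k, Polynomial.aeval h (q * Polynomial.X) = 1 → IsUnit h := by
    intro q hq
    have h1 : Polynomial.aeval h q * h = 1 := by simpa using hq
    have h2 : h * Polynomial.aeval h q = 1 := by
      have : Polynomial.aeval h (Polynomial.X * q) = 1 := by rw [mul_comm]; exact hq
      simpa using this
    exact ⟨⟨h, _, h2, h1⟩, rfl⟩
  obtain ⟨q, hq, hndvd⟩ := Polynomial.exists_eq_pow_rootMultiplicity_mul_and_not_dvd
    (minpoly k h) hp0 0
  set m := Polynomial.rootMultiplicity 0 (minpoly k h) with hm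
  rw [Polynomial.C_0, sub_zero] at hq hndvd
  have hcop : IsCoprime (Polynomial.X ^ m : Polynomial k) q :=
    IsCoprime.pow_left ((Polynomial.irreducible_X.coprime_iff_not_dvd).2 hndvd)
  obtain ⟨a, b, hab⟩ := hcop
  have hmin : Polynomial.aeval h (minpoly k h) = 0 := minpoly.aeval k h
  refine ⟨Polynomial.aeval h (a * Polynomial.X ^ m), m, ?_, ?_, ?_⟩
  · have h1 : Polynomial.aeval h ((a * Polynomial.X ^ m) * (b * q)) = 0 := by
      have : (a * Polynomial.X ^ m) * (b * q) = (a * b) * minpoly k h := by rw [hq]; ring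
      rw [this, map_mul, hmin, mul_zero]
    have h2 : Polynomial.aeval h (b * q) = 1 - Polynomial.aeval h (a * Polynomial.X ^ m) := by
      rw [eq_sub_iff_add_eq, ← map_add, add_comm, hab, map_one]
    rw [map_mul, h2, mul_sub, mul_one, sub_eq_zero] at h1
    exact h1.symm
  · intro he
    apply hh
    rcases Nat.eq_zero_or_pos m with h0 | hpos
    · -- `X` does not divide the minimal polynomial
      have hnd : ¬ Polynomial.X ∣ minpoly k h := by
        rw [hq, h0, pow_zero, one_mul]; exact hndvd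
      obtain ⟨c, d, hcd⟩ := (Polynomial.irreducible_X.coprime_iff_not_dvd).2 hnd
      refine hunit c ?_
      have := congrArg (Polynomial.aeval h) hcd
      rw [map_add, map_mul (Polynomial.aeval h) d, hmin, mul_zero, add_zero, map_one] at this
      exact this
    · obtain ⟨m', hm'⟩ := Nat.exists_eq_succ_of_ne_zero hpos.ne'
      refine hunit (a * Polynomial.X ^ m') ?_
      rw [← he, hm', pow_succ]
      congr 1
      ring
  · have h2 : 1 - Polynomial.aeval h (a * Polynomial.X ^ m) = Polynomial.aeval h (b * q) := by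
      rw [sub_eq_iff_eq_add, ← map_add, add_comm, hab, map_one]
    rw [h2]
    have h3 : h ^ m = Polynomial.aeval h (Polynomial.X ^ m : Polynomial k) := by simp
    rw [h3, ← map_mul]
    have : (Polynomial.X ^ m : Polynomial k) * (b * q) = b * minpoly k h := by
      rw [hq]; ring
    rw [this, map_mul, hmin, mul_zero]

lemma fitting' [∀ X Y : C, FiniteDimensional k (X ⟶ Y)] {F Z : C} (h : F ⟶ F) (hh : ¬ IsIso h)
    (f : F ⟶ Z) (hf : h ≫ f = f) : ∃ e : F ⟶ F, e ≫ e = e ∧ e ≠ 𝟙 F ∧ e ≫ f = f := by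
  obtain ⟨e, m, he, hne, hm⟩ := fitting k (End.of h) (by rw [isUnit_iff_isIso]; exact hh)
  have hpow : ∀ n : ℕ, (End.asHom ((End.of h) ^ n)) ≫ f = f := by
    intro n
    induction n with
    | zero => exact Category.id_comp f
    | succ n ih =>
      rw [pow_succ]
      change (h ≫ End.asHom ((End.of h) ^ n)) ≫ f = f
      rw [Category.assoc, ih, hf]
  refine ⟨End.asHom e, he, hne, ?_⟩
  have h1 : (𝟙 F - End.asHom e) ≫ End.asHom ((End.of h) ^ m) = 0 := hm
  have h2 : (𝟙 F - End.asHom e) ≫ f = 0 := by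
    calc (𝟙 F - End.asHom e) ≫ f = (𝟙 F - End.asHom e) ≫ End.asHom ((End.of h) ^ m) ≫ f := by
          rw [hpow m]
      _ = 0 := by rw [← Category.assoc, h1, zero_comp]
  rw [Preadditive.sub_comp, Category.id_comp, sub_eq_zero] at h2
  exact h2.symm

lemma exists_minimal_approx [∀ X Y : C, FiniteDimensional k (X ⟶ Y)] {J : C → Prop}
    (hJ : ThickIdeal J) (hap : ∃ (F : C) (f : F ⟶ 𝟙_ C), IsApprox J F f) :
    ∃ (F : C) (f : F ⟶ 𝟙_ C), IsApprox J F f ∧ ∀ h : F ⟶ F, h ≫ f = f → IsIso h := by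
  classical
  have hex : ∃ d : ℕ, ∃ (F : C) (f : F ⟶ 𝟙_ C), IsApprox J F f ∧ Module.finrank k (F ⟶ F) = d := by
    obtain ⟨F, f, h⟩ := hap
    exact ⟨_, F, f, h, rfl⟩
  obtain ⟨F, f, hF, hd⟩ := Nat.find_spec hex
  refine ⟨F, f, hF, fun h hhf => ?_⟩
  by_contra hiso
  obtain ⟨e, he, hne, hef⟩ := fitting' k h hiso f hhf
  obtain ⟨G, i, r, hir, hri⟩ := IsIdempotentComplete.idempotents_split F e he
  have hG : IsApprox J G (i ≫ f) := by
    refine ⟨hJ.retract i r hir hF.1, fun X hX g => ?_⟩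
    obtain ⟨a, ha⟩ := hF.2 X hX g
    refine ⟨a ≫ r, ?_⟩
    rw [Category.assoc, ← Category.assoc r, hri, hef, ha]
  have hlt : Module.finrank k (G ⟶ G) < Module.finrank k (F ⟶ F) :=
    finrank_end_lt k i r hir (by rw [hri]; exact hne)
  have := Nat.find_min' hex ⟨G, i ≫ f, hG, rfl⟩
  omega

end Linear

/-! ## Wakamatsu's lemma -/

/-- The pushout of a short exact sequence. -/
lemma shortExact_pushout {U V F : C} (a : U ⟶ V) [Mono a] (u : U ⟶ F)
    (c : pushout u a ⟶ cokernel a) (h1 : pushout.inl u a ≫ c = 0)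
    (h2 : pushout.inr u a ≫ c = cokernel.π a) :
    (ShortComplex.mk (pushout.inl u a) c h1).ShortExact := by
  have hepi : Epi c := by
    have : Epi (pushout.inr u a ≫ c) := by rw [h2]; infer_instance
    exact epi_of_epi (pushout.inr u a) _
  refine { exact := ?_, mono_f := Abelian.mono_pushout_of_mono_g _ _, epi_g := hepi }
  apply ShortComplex.exact_of_g_is_cokernel
  have hfac : ∀ {T : C} (t : pushout u a ⟶ T), pushout.inl u a ≫ t = 0 →
      a ≫ pushout.inr u a ≫ t = 0 := by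
    intro T t ht
    rw [← Category.assoc, ← pushout.condition, Category.assoc, ht, comp_zero]
  refine CokernelCofork.IsColimit.ofπ _ _
    (fun {T} t ht => cokernel.desc a (pushout.inr u a ≫ t) (hfac t ht)) ?_ ?_
  · intro T t ht
    apply pushout.hom_ext
    · change pushout.inl u a ≫ c ≫ _ = pushout.inl u a ≫ t
      rw [← Category.assoc, h1, zero_comp]
      exact ht.symm
    · change pushout.inr u a ≫ c ≫ _ = pushout.inr u a ≫ t
      rw [← Category.assoc, h2, cokernel.π_desc]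
  · intro T t ht b hb
    have hb' : c ≫ b = t := hb
    apply (cancel_epi (cokernel.π a)).1
    rw [cokernel.π_desc, ← hb', ← Category.assoc, h2]

/-- The kernel of a minimal approximation has no extensions by objects of `J`. -/
lemma wakamatsu {J : C → Prop} (hJ : ThickIdeal J) {F : C} {f : F ⟶ 𝟙_ C} (hF : IsApprox J F f)
    (hmin : ∀ h : F ⟶ F, h ≫ f = f → IsIso h) {U V : C} (a : U ⟶ V) [Mono a]
    (hZ : J (cokernel a)) (u : U ⟶ kernel f) : ∃ v : V ⟶ kernel f, a ≫ v = u := by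
  let i := kernel.ι f
  have h0 : (u ≫ i) ≫ (0 : F ⟶ cokernel a) = a ≫ cokernel.π a := by
    rw [comp_zero, cokernel.condition]
  have hS := shortExact_pushout a (u ≫ i) (pushout.desc 0 (cokernel.π a) h0)
    (pushout.inl_desc _ _ _) (pushout.inr_desc _ _ _)
  have hE : J (pushout (u ≫ i) a) := hJ.ext hS hF.1 hZ
  have hui : (u ≫ i) ≫ f = a ≫ 0 := by simp [i]
  obtain ⟨h, hh⟩ := hF.2 _ hE (pushout.desc f 0 hui)
  have hθ : (pushout.inl (u ≫ i) a ≫ h) ≫ f = f := by
    rw [Category.assoc, hh, pushout.inl_desc]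
  have hiso := hmin _ hθ
  have hinv : inv (pushout.inl (u ≫ i) a ≫ h) ≫ f = f := by
    rw [IsIso.inv_comp_eq, hθ]
  have hv' : (pushout.inr (u ≫ i) a ≫ h ≫ inv (pushout.inl (u ≫ i) a ≫ h)) ≫ f = 0 := by
    simp only [Category.assoc]
    rw [hinv, hh, pushout.inr_desc]
  refine ⟨kernel.lift f _ hv', ?_⟩
  rw [← cancel_mono (kernel.ι f), Category.assoc, kernel.lift_ι]
  rw [← Category.assoc, ← pushout.condition]
  simp only [Category.assoc]
  have h3 : pushout.inl (u ≫ i) a ≫ h ≫ inv (pushout.inl (u ≫ i) a ≫ h) = 𝟙 _ := by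
    rw [← Category.assoc, IsIso.hom_inv_id]
  rw [h3, Category.comp_id]

/-- For `Z` in `J` the object `Z ⊗ ker f` is injective. -/
lemma injective_tensor_kernel {J : C → Prop} (hJ : ThickIdeal J) {F : C} {f : F ⟶ 𝟙_ C}
    (hF : IsApprox J F f) (hmin : ∀ h : F ⟶ F, h ≫ f = f → IsIso h) {Z : C} (hZ : J Z) :
    Injective (Z ⊗ kernel f) where
  factors {L M} g m _ := by
    let adj := tensorLeftAdjunction Z (Zᘁ)
    have hcok : J (cokernel ((tensorLeft (Zᘁ)).map m)) :=
      hJ.iso (PreservesCokernel.iso (tensorLeft (Zᘁ)) m).symm (hJ.right _ (hJ.rightDual hZ))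
    have : Mono ((tensorLeft (Zᘁ)).map m) := inferInstance
    obtain ⟨v, hv⟩ := wakamatsu hJ hF hmin ((tensorLeft (Zᘁ)).map m) hcok
      ((adj.homEquiv L (kernel f)).symm g)
    refine ⟨adj.homEquiv M (kernel f) v, ?_⟩
    rw [← Adjunction.homEquiv_naturality_left, hv]
    exact (adj.homEquiv L (kernel f)).apply_symm_apply g

/-- A morphism `i : Y ⟶ F` factors through `F ⊗ (Fᘁ ⊗ Y)`. -/
lemma factor_dual {Y F F' : C} [ExactPairing F F'] (i : Y ⟶ F) :
    ((λ_ Y).inv ≫ η_ F F' ▷ Y ≫ (α_ F F' Y).hom) ≫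
      (F ◁ (F' ◁ i) ≫ F ◁ ε_ F F' ≫ (ρ_ F).hom) = i := by
  have h := retract_left F F'
  calc _ = (λ_ Y).inv ≫ η_ F F' ▷ Y ≫ ((α_ F F' Y).hom ≫ F ◁ (F' ◁ i)) ≫ F ◁ ε_ F F' ≫
        (ρ_ F).hom := by simp only [Category.assoc]
    _ = (λ_ Y).inv ≫ (η_ F F' ▷ Y ≫ (F ⊗ F') ◁ i) ≫ (α_ F F' F).hom ≫ F ◁ ε_ F F' ≫
        (ρ_ F).hom := by
        rw [← associator_naturality_right]; simp only [Category.assoc]
    _ = ((λ_ Y).inv ≫ 𝟙_ C ◁ i) ≫ η_ F F' ▷ F ≫ (α_ F F' F).hom ≫ F ◁ ε_ F F' ≫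
        (ρ_ F).hom := by
        rw [← whisker_exchange]; simp only [Category.assoc]
    _ = i ≫ (((λ_ F).inv ≫ η_ F F' ▷ F ≫ (α_ F F' F).hom) ≫ (F ◁ ε_ F F' ≫ (ρ_ F).hom)) := by
        rw [← leftUnitor_inv_naturality]; simp only [Category.assoc]
    _ = i := by rw [h, Category.comp_id]

/-- The main dichotomy: a thick tensor ideal for which the unit object has a (minimal) right
approximation contains the unit object or consists of projective objects. -/
theorem dichotomy [EnoughProjectives C] [Simple (𝟙_ C)] {J : C → Prop} (hJ : ThickIdeal J)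
    {F : C} {f : F ⟶ 𝟙_ C} (hF : IsApprox J F f)
    (hmin : ∀ h : F ⟶ F, h ≫ f = f → IsIso h) :
    J (𝟙_ C) ∨ ∀ X, J X → Projective X := by
  have hepi : Epi f := by
    obtain ⟨h, hh⟩ := hF.2 _ (hJ.proj (Projective.projective_over (𝟙_ C))) (Projective.π (𝟙_ C))
    have : Epi (h ≫ f) := by rw [hh]; infer_instance
    exact epi_of_epi h f
  have hQ1 : Injective (Fᘁ ⊗ kernel f) :=
    injective_tensor_kernel hJ hF hmin (hJ.rightDual hF.1)
  have hQi : Injective (F ⊗ (Fᘁ ⊗ kernel f)) := injective_tensor_left _ hQ1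
  have hQp : Projective (F ⊗ (Fᘁ ⊗ kernel f)) := projective_of_injective hQi
  have hfac := factor_dual (F := F) (F' := Fᘁ) (kernel.ι f)
  set α : kernel f ⟶ F ⊗ (Fᘁ ⊗ kernel f) :=
    (λ_ (kernel f)).inv ≫ η_ F (Fᘁ) ▷ (kernel f) ≫ (α_ F (Fᘁ) (kernel f)).hom with hα
  set β : F ⊗ (Fᘁ ⊗ kernel f) ⟶ F :=
    F ◁ ((Fᘁ) ◁ (kernel.ι f)) ≫ F ◁ ε_ F (Fᘁ) ≫ (ρ_ F).hom with hβ
  let γ : F ⟶ F ⊗ (Fᘁ ⊗ kernel f) := Injective.factorThru α (kernel.ι f)
  have hγ : kernel.ι f ≫ γ = α := Injective.comp_factorThru α (kernel.ι f)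
  have hzero : kernel.ι f ≫ (𝟙 F - γ ≫ β) = 0 := by
    rw [Preadditive.comp_sub, Category.comp_id, ← Category.assoc, hγ, hfac, sub_self]
  have hex := (shortExact_ker f).exact
  obtain ⟨g, hg⟩ : ∃ g : 𝟙_ C ⟶ F, f ≫ g = 𝟙 F - γ ≫ β := by
    refine ⟨hex.desc (𝟙 F - γ ≫ β) hzero, ?_⟩
    exact hex.g_desc _ _
  by_cases h0 : g ≫ f = 0
  · right
    intro X hX
    have hf : f = γ ≫ β ≫ f := by
      have h1 : (f ≫ g) ≫ f = 0 := by rw [Category.assoc, h0, comp_zero]
      rw [hg, Preadditive.sub_comp, Category.id_comp, sub_eq_zero, Category.assoc] at h1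
      exact h1
    obtain ⟨s, hs⟩ := hF.2 _ (hJ.left (Xᘁ) hX) (ε_ X (Xᘁ))
    have hε : ε_ X (Xᘁ) = (s ≫ γ) ≫ (β ≫ f) := by
      rw [← hs]
      conv_lhs => rw [hf]
      simp only [Category.assoc]
    have h := retract_left X (Xᘁ)
    rw [hε] at h
    refine projective_of_retract
      (((λ_ X).inv ≫ η_ X (Xᘁ) ▷ X ≫ (α_ X (Xᘁ) X).hom) ≫ X ◁ (s ≫ γ))
      (X ◁ (β ≫ f) ≫ (ρ_ X).hom) ?_ (projective_tensor_left X hQp)
    rw [← h]
    simp only [Category.assoc, MonoidalCategory.whiskerLeft_comp]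
  · left
    have : IsIso (g ≫ f) := isIso_of_hom_simple h0
    refine hJ.retract g (f ≫ inv (g ≫ f)) ?_ hF.1
    rw [← Category.assoc, IsIso.hom_inv_id]

end Pool.Agent.TPP
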