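import Pool.Agent.TPP.Support

/-!
# The tensor product property
-/

set_option autoImplicit false
set_option linter.unusedSectionVars false

namespace Pool.Agent.TPP

open CategoryTheory CategoryTheory.Limits MonoidalCategory CategoryTheory.Abelian

universe w v u

variable (k : Type*) [Field k] {C : Type u} [Category.{v} C] [Abelian C] [Linear k C]
  [MonoidalCategory C] [MonoidalPreadditive C] [RigidCategory C] [HasExt.{w} C]

variable (C) in
/-- A point of the maximal ideal spectrum of `H^ev = ⊕ Ext^{2n}(𝟙, 𝟙)`: a homomorphism of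
`k`-algebras from `H^ev` to `k`, given by its restrictions to the homogeneous components. -/
structure Point where
  /-- the restriction to the component of degree `2 n` -/
  toFun : ∀ n : ℕ, Ext.{w} (𝟙_ C) (𝟙_ C) (2 * n) → k
  map_add : ∀ n (x y : Ext.{w} (𝟙_ C) (𝟙_ C) (2 * n)), toFun n (x + y) = toFun n x + toFun n y
  map_smul : ∀ n (c : k) (x : Ext.{w} (𝟙_ C) (𝟙_ C) (2 * n)), toFun n (c • x) = c * toFun n x
  map_one : toFun 0 (Ext.mk₀ (𝟙 (𝟙_ C))) = 1
  map_mul : ∀ (m n : ℕ) (x : Ext.{w} (𝟙_ C) (𝟙_ C) (2 * m)) (y : Ext.{w} (𝟙_ C) (𝟙_ C) (2 * n)),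
    toFun (m + n) (x.comp y (Nat.mul_add 2 m n).symm) = toFun m x * toFun n y

/-- The support variety of `A`: the zero set of the kernel of `x ↦ x ⊗ id_A`. -/
def supp (A : C) : Set (Point.{w} k C) :=
  {p | ∀ (n : ℕ) (x : Ext.{w} (𝟙_ C) (𝟙_ C) (2 * n)), tensId A x = 0 → p.toFun n x = 0}

variable {k}

lemma Point.map_zero (p : Point.{w} k C) (n : ℕ) : p.toFun n 0 = 0 := by
  have h := p.map_smul n 0 0
  rwa [zero_smul, zero_mul] at h

lemma Point.congr (p : Point.{w} k C) {m n : ℕ} (h : m = n) (x : Ext.{w} (𝟙_ C) (𝟙_ C) (2 * m)) :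
    p.toFun n (h ▸ x) = p.toFun m x := by
  subst h; rfl

lemma Point.map_epow (p : Point.{w} k C) {n : ℕ} (x : Ext.{w} (𝟙_ C) (𝟙_ C) (2 * n)) (N : ℕ) :
    p.toFun (n * N) (epow x N) = p.toFun n x ^ N := by
  induction N with
  | zero => rw [pow_zero]; exact p.map_one
  | succ N ih =>
    rw [pow_succ, ← ih]
    exact p.map_mul (n * N) n (epow x N) x

variable [EnoughProjectives C] [Simple (𝟙_ C)]

lemma isZero_of_whisker (A : C) (g : 𝟙_ C ⟶ 𝟙_ C) (hg : g ≠ 0) (h : g ▷ A = 0) : IsZero A := by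
  have : IsIso g := isIso_of_hom_simple hg
  have h1 : IsIso (g ▷ A) := inferInstance
  rw [h] at h1
  have h2 : IsZero (𝟙_ C ⊗ A) := by
    rw [IsZero.iff_id_eq_zero]
    rw [← IsIso.hom_inv_id (0 : 𝟙_ C ⊗ A ⟶ 𝟙_ C ⊗ A), zero_comp]
  exact h2.of_iso (λ_ A).symm

/-- Points that vanish in positive degrees are in the support of every nonzero object. -/
lemma mem_supp_of_pos (p : Point.{w} k C) (hp : ∀ n, 0 < n → ∀ x, p.toFun n x = 0) {A : C}
    (hA : ¬ IsZero A) : p ∈ supp k A := by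
  intro n x hx
  rcases Nat.eq_zero_or_pos n with rfl | hn
  · obtain ⟨g, rfl⟩ := (Ext.mk₀_bijective (𝟙_ C) (𝟙_ C)).2 x
    rw [tensId_eq_zero_iff] at hx
    erw [Ext.mapExactFunctor_mk₀] at hx
    have h1 : g ▷ A = 0 := by
      rw [← Ext.mk₀_zero] at hx
      exact (Ext.mk₀_bijective _ _).1 hx
    by_cases hg : g = 0
    · subst hg
      erw [Ext.mk₀_zero]
      exact p.map_zero 0
    · exact absurd (isZero_of_whisker A g hg h1) hA
  · exact hp n hn x

lemma pos_of_mem_supp (p : Point.{w} k C) {P : C} (hP : Projective P) (h : p ∈ supp k P) :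
    ∀ n, 0 < n → ∀ x, p.toFun n x = 0 := by
  intro n hn x
  apply h
  obtain ⟨m, rfl⟩ := Nat.exists_eq_succ_of_ne_zero hn.ne'
  exact Ext.eq_zero_of_projective _

lemma supp_projective {P : C} (hP : Projective P) (h0 : ¬ IsZero P) :
    supp.{w} k P = {p | ∀ n, 0 < n → ∀ x, p.toFun n x = 0} :=
  Set.Subset.antisymm (fun p hp => pos_of_mem_supp p hP hp) fun p hp => mem_supp_of_pos p hp h0

lemma supp_zero {A : C} (hA : IsZero A) : supp.{w} k A = ∅ := by
  apply Set.eq_empty_of_forall_notMem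
  intro p hp
  have h1 : tensId A (Ext.mk₀ (𝟙 (𝟙_ C)) : Ext.{w} (𝟙_ C) (𝟙_ C) (2 * 0)) = 0 := by
    have h2 : (λ_ A).inv = 0 := hA.eq_of_src _ _
    unfold tensId
    rw [h2, Ext.mk₀_zero, Ext.zero_comp]
  have h3 := hp 0 _ h1
  rw [p.map_one] at h3
  exact one_ne_zero h3

lemma isZero_tensor {A B : C} (h : IsZero (A ⊗ B)) : IsZero A ∨ IsZero B := by
  by_cases hA : IsZero A
  · exact Or.inl hA
  right
  have hne : ε_ A (Aᘁ) ≠ 0 := by
    intro h0
    apply hA
    rw [IsZero.iff_id_eq_zero, ← retract_left A (Aᘁ), h0]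
    simp
  have : Epi (ε_ A (Aᘁ)) := epi_of_nonzero_to_simple hne
  have h1 : Epi (ε_ A (Aᘁ) ▷ B) := inferInstanceAs (Epi ((tensorRight B).map (ε_ A (Aᘁ))))
  have h2 : IsZero ((Aᘁ ⊗ A) ⊗ B) := by
    have h3 : IsZero (Aᘁ ⊗ (A ⊗ B)) := (tensorLeft (Aᘁ)).map_isZero h
    exact h3.of_iso (α_ _ _ _)
  have h4 : IsZero (𝟙_ C ⊗ B) := by
    rw [IsZero.iff_id_eq_zero]
    apply (cancel_epi (ε_ A (Aᘁ) ▷ B)).1
    exact h2.eq_of_src _ _
  exact h4.of_iso (λ_ B).symm

lemma isZero_tensor_left {A : C} (B : C) (h : IsZero A) : IsZero (A ⊗ B) :=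
  (tensorRight B).map_isZero h

lemma isZero_tensor_right (A : C) {B : C} (h : IsZero B) : IsZero (A ⊗ B) :=
  (tensorLeft A).map_isZero h

variable (k) in
/-- The dichotomy. -/
theorem ideal_trivial [∀ X Y : C, FiniteDimensional k (X ⟶ Y)] {J : C → Prop}
    (hJ : ThickIdeal J) (hfin : ∃ (F : C) (f : F ⟶ 𝟙_ C), IsApprox J F f) :
    (∀ X, J X) ∨ ∀ X, J X → Projective X := by
  obtain ⟨F, f, hF, hmin⟩ := exists_minimal_approx k hJ hfin
  rcases dichotomy hJ hF hmin with h | h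
  · left
    intro X
    exact hJ.iso (λ_ X).symm (hJ.right X h)
  · exact Or.inr h

lemma FinTo.mono {J J' : C → Prop} (h : FinTo J') (hJ : ∀ X, J X → J' X) : FinTo J := by
  obtain ⟨n, F, hF⟩ := h
  exact ⟨n, F, fun X hX hi hf => hF X (hJ X hX) hi hf⟩

/-- The thick tensor ideal generated by `A`. -/
def Gen (A : C) : C → Prop := fun X => ∀ J : C → Prop, ThickIdeal J → J A → J X

omit [HasExt.{w} C] [EnoughProjectives C] [Simple (𝟙_ C)] [Linear k C] in
lemma thick_gen (A : C) : ThickIdeal (Gen A) where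
  retract i r h hY _ hJ hA := hJ.retract i r h (hY _ hJ hA)
  ext hS h1 h3 J hJ hA := hJ.ext hS (h1 J hJ hA) (h3 J hJ hA)
  proj hP J hJ _ := hJ.proj hP
  left X _ hY J hJ hA := hJ.left X (hY J hJ hA)
  right Y hX J hJ hA := hJ.right Y (hX J hJ hA)

/-- The class of the objects `X` such that `x ^ N ⊗ id_{X ⊗ B} = 0` for some `N`. -/
def KillB {n : ℕ} (x : Ext.{w} (𝟙_ C) (𝟙_ C) (2 * n)) (B X : C) : Prop :=
  ∃ N, (epow x N).mapExactFunctor (tensorRight (X ⊗ B)) = 0

lemma thick_killB [BraidedCategory C] {n : ℕ} (hn : 0 < n)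
    (x : Ext.{w} (𝟙_ C) (𝟙_ C) (2 * n)) (B : C) : ThickIdeal (KillB x B) where
  retract := by
    rintro X Y i r h ⟨N, hN⟩
    refine ⟨N, kill_retract (i ▷ B) (r ▷ B) ?_ _ hN⟩
    rw [← comp_whiskerRight, h, id_whiskerRight]
  ext := by
    rintro S hS ⟨a, ha⟩ ⟨b, hb⟩
    exact ⟨b + a, kill_ext (hS.map_of_exact (tensorRight B)) x ha hb⟩
  proj := by
    intro P hP
    refine ⟨1, ?_⟩
    have : Projective ((tensorRight (P ⊗ B)).obj (𝟙_ C)) :=
      projective_tensor_left _ (projective_tensor_right hP _)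
    obtain ⟨m, rfl⟩ := Nat.exists_eq_succ_of_ne_zero hn.ne'
    exact Ext.eq_zero_of_projective _
  left := by
    rintro X Y ⟨N, hN⟩
    have h1 := kill_right X _ hN
    refine ⟨N, kill_retract ((α_ X Y B).hom ≫ (β_ X (Y ⊗ B)).hom)
      ((β_ X (Y ⊗ B)).inv ≫ (α_ X Y B).inv) (by simp) _ h1⟩
  right := by
    rintro X Y ⟨N, hN⟩
    have h1 := kill_right Y _ hN
    refine ⟨N, kill_retract
      ((β_ X Y).hom ▷ B ≫ (α_ Y X B).hom ≫ (β_ Y (X ⊗ B)).hom)
      ((β_ Y (X ⊗ B)).inv ≫ (α_ Y X B).inv ≫ (β_ X Y).inv ▷ B) (by simp) _ h1⟩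

/-- Elements of degree `0`. -/
lemma point_zero_degree (p : Point.{w} k C) {X : C} (hX0 : ¬ IsZero X)
    (x : Ext.{w} (𝟙_ C) (𝟙_ C) (2 * 0)) (hx : tensId X x = 0) : p.toFun 0 x = 0 := by
  obtain ⟨g, rfl⟩ := (Ext.mk₀_bijective (𝟙_ C) (𝟙_ C)).2 x
  rw [tensId_eq_zero_iff] at hx
  erw [Ext.mapExactFunctor_mk₀] at hx
  have h1 : g ▷ X = 0 := by
    rw [← Ext.mk₀_zero] at hx
    exact (Ext.mk₀_bijective _ _).1 hx
  by_cases hg : g = 0
  · subst hg
    erw [Ext.mk₀_zero]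
    exact p.map_zero 0
  · exact absurd (isZero_of_whisker X g hg h1) hX0

/-- The inclusion which holds in every braided category. -/
lemma supp_tensor_subset [BraidedCategory C] (A B : C) :
    supp.{w} k (A ⊗ B) ⊆ supp k A ∩ supp k B := by
  intro p hp
  refine ⟨fun n x hx => hp n x ?_, fun n x hx => hp n x ?_⟩
  · rw [tensId_eq_zero_iff] at hx ⊢
    exact kill_right B x hx
  · rw [tensId_eq_zero_iff] at hx ⊢
    exact kill_retract (β_ A B).hom (β_ A B).inv (Iso.hom_inv_id _) _ (kill_right A x hx)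

theorem tpp_gen [BraidedCategory C] [∀ X Y : C, FiniteDimensional k (X ⟶ Y)] (A : C)
    (hap : ∃ (F : C) (f : F ⟶ 𝟙_ C), IsApprox (Gen A) F f) (B : C) :
    supp.{w} k (A ⊗ B) = supp k A ∩ supp k B := by
  refine Set.Subset.antisymm (supp_tensor_subset A B) ?_
  by_cases hA0 : IsZero A
  · rw [supp_zero hA0, Set.empty_inter]
    exact Set.empty_subset _
  by_cases hB0 : IsZero B
  · rw [supp_zero hB0, Set.inter_empty]
    exact Set.empty_subset _
  have hAB0 : ¬ IsZero (A ⊗ B) := fun h => (isZero_tensor h).elim hA0 hB0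
  by_cases hA : Projective A
  · rw [supp_projective hA hA0, supp_projective (projective_tensor_right hA B) hAB0]
    exact Set.inter_subset_left
  have h1 : Gen A (𝟙_ C) := by
    rcases ideal_trivial k (thick_gen A) hap with h | h
    · exact h _
    · exact absurd (h A fun J _ h => h) hA
  rintro p ⟨-, hp⟩ n x hx
  rcases Nat.eq_zero_or_pos n with rfl | hn
  · exact point_zero_degree p hAB0 x hx
  have hkill : KillB x B A := by
    refine ⟨1, ?_⟩
    rw [tensId_eq_zero_iff] at hx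
    show (Ext.comp (epow x 0) x _).mapExactFunctor (tensorRight (A ⊗ B)) = 0
    rw [Ext.mapExactFunctor_comp, hx, Ext.comp_zero]
  obtain ⟨N, hN⟩ := h1 _ (thick_killB hn x B) hkill
  have h2 : tensId B (epow x N) = 0 := by
    rw [tensId_eq_zero_iff]
    exact kill_retract (λ_ B).inv (λ_ B).hom (Iso.inv_hom_id _) _ hN
  have h3 := p.map_epow x N
  rw [hp _ _ h2] at h3
  by_contra hne
  exact pow_ne_zero N hne h3.symm

end Pool.Agent.TPP
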