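import Pool.Agent.TPP.Ideal
import Pool.Agent.TPP.ExtNat

/-!
# Support varieties
-/

set_option autoImplicit false
set_option linter.unusedSectionVars false

namespace Pool.Agent.TPP

open CategoryTheory CategoryTheory.Limits MonoidalCategory CategoryTheory.Abelian

universe w v u

variable {C : Type u} [Category.{v} C] [Abelian C] [MonoidalCategory C] [MonoidalPreadditive C]
  [RigidCategory C]

section

variable [HasExt.{w} C]

/-- The class `x ⊗ id_A` in `Ext(A, A)` of a class `x` in `Ext(𝟙, 𝟙)`. -/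
noncomputable def tensId (A : C) {n : ℕ} (x : Ext.{w} (𝟙_ C) (𝟙_ C) n) : Ext.{w} A A n :=
  (Ext.mk₀ (λ_ A).inv).comp
    ((x.mapExactFunctor (tensorRight A)).comp (Ext.mk₀ (λ_ A).hom) (add_zero n)) (zero_add n)

lemma tensId_eq_zero_iff (A : C) {n : ℕ} (x : Ext.{w} (𝟙_ C) (𝟙_ C) n) :
    tensId A x = 0 ↔ x.mapExactFunctor (tensorRight A) = 0 := by
  constructor
  · intro h
    have h1 : (Ext.mk₀ (λ_ A).hom).comp ((tensId A x).comp (Ext.mk₀ (λ_ A).inv) (add_zero n))
        (zero_add n) = x.mapExactFunctor (tensorRight A) := by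
      unfold tensId
      rw [Ext.comp_assoc_of_third_deg_zero, Ext.mk₀_comp_mk₀_assoc, Iso.hom_inv_id,
        Ext.mk₀_id_comp, Ext.comp_assoc_of_third_deg_zero, Ext.mk₀_comp_mk₀, Iso.hom_inv_id]
      exact Ext.comp_mk₀_id _
    rw [h, Ext.zero_comp, Ext.comp_zero] at h1
    exact h1.symm
  · intro h
    unfold tensId
    rw [h, Ext.zero_comp, Ext.comp_zero]

/-- The `N`-th power of an element of even degree `2 n`. -/
noncomputable def epow {X : C} {n : ℕ} (x : Ext.{w} X X (2 * n)) :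
    (N : ℕ) → Ext.{w} X X (2 * (n * N))
  | 0 => Ext.mk₀ (𝟙 X)
  | N + 1 => (epow x N).comp x (by rw [Nat.mul_add, Nat.mul_add, Nat.mul_one])

lemma epow_add {X : C} {n : ℕ} (x : Ext.{w} X X (2 * n)) (a b : ℕ) :
    epow x (a + b) = (epow x a).comp (epow x b) (by rw [Nat.mul_add, Nat.mul_add]) := by
  induction b with
  | zero => exact (Ext.comp_mk₀_id _).symm
  | succ b ih =>
    change (epow x (a + b)).comp x _ = (epow x a).comp ((epow x b).comp x _) _
    rw [ih, Ext.comp_assoc]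
    change _ = 2 * (n * (a + b + 1))
    ring

variable [EnoughProjectives C]

/-- The natural transformation `- ⊗ X ⟶ - ⊗ Y`. -/
def tr {X Y : C} (i : X ⟶ Y) : tensorRight X ⟶ tensorRight Y where
  app Z := Z ◁ i
  naturality _ _ f := (whisker_exchange f i).symm

lemma tr_nat {X Y : C} (i : X ⟶ Y) {n : ℕ} (x : Ext.{w} (𝟙_ C) (𝟙_ C) n) :
    (x.mapExactFunctor (tensorRight X)).comp (Ext.mk₀ (𝟙_ C ◁ i)) (add_zero n) =
      (Ext.mk₀ (𝟙_ C ◁ i)).comp (x.mapExactFunctor (tensorRight Y)) (zero_add n) :=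
  map_naturality _ _ (tr i) x

lemma kill_retract {X Y : C} (i : X ⟶ Y) (r : Y ⟶ X) (h : i ≫ r = 𝟙 X) {n : ℕ}
    (x : Ext.{w} (𝟙_ C) (𝟙_ C) n) (hx : x.mapExactFunctor (tensorRight Y) = 0) :
    x.mapExactFunctor (tensorRight X) = 0 := by
  have h1 := tr_nat i x
  rw [hx, Ext.comp_zero] at h1
  have h2 : ((x.mapExactFunctor (tensorRight X)).comp (Ext.mk₀ (𝟙_ C ◁ i)) (add_zero n)).comp
      (Ext.mk₀ (𝟙_ C ◁ r)) (add_zero n) = 0 := by rw [h1, Ext.zero_comp]
  rw [Ext.comp_assoc_of_third_deg_zero, Ext.mk₀_comp_mk₀, ← MonoidalCategory.whiskerLeft_comp, h,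
    MonoidalCategory.whiskerLeft_id] at h2
  exact (Ext.comp_mk₀_id _).symm.trans h2

lemma kill_right {X : C} (Y : C) {n : ℕ} (x : Ext.{w} (𝟙_ C) (𝟙_ C) n)
    (hx : x.mapExactFunctor (tensorRight X) = 0) : x.mapExactFunctor (tensorRight (X ⊗ Y)) = 0 := by
  let τ : tensorRight (X ⊗ Y) ⟶ tensorRight X ⋙ tensorRight Y :=
    { app := fun Z => (α_ Z X Y).inv
      naturality := fun Z W f => by simp }
  have h1 := map_naturality _ _ τ x
  have h2 : x.mapExactFunctor (tensorRight X ⋙ tensorRight Y) = 0 := by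
    rw [map_comp, hx, Ext.mapExactFunctor_zero]
  rw [h2, Ext.comp_zero] at h1
  have h3 : ((x.mapExactFunctor (tensorRight (X ⊗ Y))).comp
      (Ext.mk₀ (τ.app (𝟙_ C))) (add_zero n)).comp (Ext.mk₀ (α_ (𝟙_ C) X Y).hom) (add_zero n) = 0 := by
    rw [h1, Ext.zero_comp]
  have h4 : τ.app (𝟙_ C) ≫ (α_ (𝟙_ C) X Y).hom = 𝟙 _ := Iso.inv_hom_id _
  rw [Ext.comp_assoc_of_third_deg_zero, Ext.mk₀_comp_mk₀, h4] at h3
  exact (Ext.comp_mk₀_id _).symm.trans h3

lemma kill_unit {n : ℕ} (x : Ext.{w} (𝟙_ C) (𝟙_ C) n)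
    (hx : x.mapExactFunctor (tensorRight (𝟙_ C)) = 0) : x = 0 := by
  let τ : 𝟭 C ⟶ tensorRight (𝟙_ C) :=
    { app := fun Z => (ρ_ Z).inv
      naturality := fun Z W f => by simp }
  have h1 := map_naturality _ _ τ x
  rw [hx, Ext.comp_zero, map_id] at h1
  have h3 : (x.comp (Ext.mk₀ (τ.app (𝟙_ C))) (add_zero n)).comp (Ext.mk₀ (ρ_ (𝟙_ C)).hom)
      (add_zero n) = 0 := by
    rw [h1, Ext.zero_comp]
  have h4 : τ.app (𝟙_ C) ≫ (ρ_ (𝟙_ C)).hom = 𝟙 _ := Iso.inv_hom_id _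
  rw [Ext.comp_assoc_of_third_deg_zero, Ext.mk₀_comp_mk₀, h4] at h3
  exact (Ext.comp_mk₀_id _).symm.trans h3

lemma kill_ext {S : ShortComplex C} (hS : S.ShortExact) {n : ℕ}
    (x : Ext.{w} (𝟙_ C) (𝟙_ C) (2 * n)) {a b : ℕ}
    (ha : (epow x a).mapExactFunctor (tensorRight S.X₁) = 0)
    (hb : (epow x b).mapExactFunctor (tensorRight S.X₃) = 0) :
    (epow x (b + a)).mapExactFunctor (tensorRight S.X₂) = 0 := by
  have hT := hS.map_of_exact (tensorLeft (𝟙_ C))
  -- `x^b` on the middle object factors through `X₁`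
  obtain ⟨y, hy⟩ : ∃ y : Ext.{w} ((tensorRight S.X₂).obj (𝟙_ C)) (𝟙_ C ⊗ S.X₁) (2 * (n * b)),
      y.comp (Ext.mk₀ (𝟙_ C ◁ S.f)) (add_zero _) = (epow x b).mapExactFunctor (tensorRight S.X₂) := by
    refine Ext.covariant_sequence_exact₂ _ hT _ ?_
    have h1 := tr_nat S.g (epow x b)
    rw [hb, Ext.comp_zero] at h1
    exact h1
  have h2 := tr_nat S.f (epow x a)
  rw [ha, Ext.zero_comp] at h2
  rw [epow_add, Ext.mapExactFunctor_comp, ← hy, Ext.comp_assoc_of_second_deg_zero, ← h2,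
    Ext.comp_zero]

end

/-- The class of the objects `X` such that `x ^ N ⊗ id_X = 0` for some `N`. -/
def Kill [HasExt.{w} C] {n : ℕ} (x : Ext.{w} (𝟙_ C) (𝟙_ C) (2 * n)) (X : C) : Prop :=
  ∃ N, (epow x N).mapExactFunctor (tensorRight X) = 0

lemma thick_kill [HasExt.{w} C] [EnoughProjectives C] [BraidedCategory C] {n : ℕ} (hn : 0 < n)
    (x : Ext.{w} (𝟙_ C) (𝟙_ C) (2 * n)) : ThickIdeal (Kill x) where
  retract := by
    rintro X Y i r h ⟨N, hN⟩
    exact ⟨N, kill_retract i r h _ hN⟩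
  ext := by
    rintro S hS ⟨a, ha⟩ ⟨b, hb⟩
    exact ⟨b + a, kill_ext hS x ha hb⟩
  proj := by
    intro P hP
    refine ⟨1, ?_⟩
    have : Projective ((tensorRight P).obj (𝟙_ C)) := projective_tensor_left _ hP
    obtain ⟨m, rfl⟩ := Nat.exists_eq_succ_of_ne_zero hn.ne'
    exact Ext.eq_zero_of_projective _
  left := by
    rintro X Y ⟨N, hN⟩
    refine ⟨N, kill_retract (β_ X Y).hom (β_ X Y).inv (Iso.hom_inv_id _) _ (kill_right X _ hN)⟩
  right := by
    rintro X Y ⟨N, hN⟩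
    exact ⟨N, kill_right Y _ hN⟩

/-- The class of the objects `X` such that `X ⊗ B` is projective. -/
lemma thick_ann [BraidedCategory C] (B : C) : ThickIdeal fun X : C => Projective (X ⊗ B) where
  retract := by
    intro X Y i r h hY
    refine projective_of_retract (i ▷ B) (r ▷ B) ?_ hY
    rw [← comp_whiskerRight, h, id_whiskerRight]
  ext := by
    intro S hS h1 h3
    have hT := hS.map_of_exact (tensorRight B)
    have h3' : Projective (S.map (tensorRight B)).X₃ := h3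
    have e := hT.splittingOfProjective.isoBinaryBiproduct
    have h4 : Projective ((S.X₁ ⊗ B) ⊞ (S.X₃ ⊗ B)) := by
      have := h1
      have := h3
      infer_instance
    exact Projective.of_iso e.symm h4
  proj := fun hP => projective_tensor_right hP B
  left := by
    intro X Y hY
    exact Projective.of_iso (α_ X Y B).symm (projective_tensor_left X hY)
  right := by
    intro X Y hX
    have h1 : Projective (Y ⊗ (X ⊗ B)) := projective_tensor_left Y hX
    exact Projective.of_iso ((α_ Y X B).symm ≪≫ whiskerRightIso (β_ Y X) B) h1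

end Pool.Agent.TPP
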